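import Pool.Agent.Helper45.PG.Slab
import Pool.Agent.Helper79.GR.RC

/-!
# Passage times with weights replaced by `b` off disjoint edge sets are independent
-/

set_option autoImplicit false

namespace Pool.Agent.Helper45.PG

open Pool.Agent.Helper79.GR MeasureTheory ProbabilityTheory
open scoped ENNReal

variable {Ω : Type*} [mΩ : MeasurableSpace Ω] {d : ℕ} {P : Measure Ω} {X : Edge d → Ω → ℝ}
  {ν : Measure ℝ} {a b : ℝ}

/-- the sigma-algebra of the weights in `S` -/
def sig (X : Edge d → Ω → ℝ) (S : Edge d → Prop) : MeasurableSpace Ω :=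
  ⨆ e ∈ {e : Edge d | S e}, MeasurableSpace.comap (X e) inferInstance

theorem meas_sig {S : Edge d → Prop} {e : Edge d} (he : S e) : Measurable[sig X S] (X e) := by
  have h1 : MeasurableSpace.comap (X e) inferInstance ≤ sig X S :=
    le_iSup₂_of_le (f := fun (e : Edge d) (_ : e ∈ {e : Edge d | S e}) =>
      MeasurableSpace.comap (X e) inferInstance) e he le_rfl
  exact (comap_measurable (X e)).mono h1 le_rfl

theorem meas_repl (S : Edge d → Prop) (b : ℝ) :
    Measurable[sig X S] fun ω => repl S b (cf X ω) := by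
  classical
  refine @measurable_pi_lambda _ _ _ (sig X S) _ _ fun e => ?_
  by_cases he : S e
  · have : (fun ω => repl S b (cf X ω) e) = X e := by
      funext ω
      unfold repl
      rw [if_pos he]
      rfl
    rw [this]
    exact meas_sig he
  · have : (fun ω => repl S b (cf X ω) e) = fun _ => b := by
      funext ω
      unfold repl
      rw [if_neg he]
    rw [this]
    exact @measurable_const _ _ _ (sig X S) _

theorem sig_le (h : Env P X ν a b) (S : Edge d → Prop) : sig X S ≤ mΩ := by
  unfold sig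
  exact iSup₂_le fun e _ => (h.meas e).comap_le

theorem indep_sig (h : Env P X ν a b) {S1 S2 : Edge d → Prop} (hd : ∀ e, S1 e → S2 e → False) :
    Indep (sig X S1) (sig X S2) P := by
  refine indep_iSup_of_disjoint (fun e => (h.meas e).comap_le) h.indep ?_
  rw [Set.disjoint_left]
  exact fun e h1 h2 => hd e h1 h2

theorem indep_repl (h : Env P X ν a b) {S1 S2 : Edge d → Prop} (hd : ∀ e, S1 e → S2 e → False)
    {f g : (Edge d → ℝ) → ℝ≥0∞} (hf : Measurable f) (hg : Measurable g) :
    IndepFun (fun ω => f (repl S1 b (cf X ω))) (fun ω => g (repl S2 b (cf X ω))) P := by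
  rw [IndepFun_iff_Indep]
  refine indep_of_indep_of_le_left (indep_of_indep_of_le_right (indep_sig h hd) ?_) ?_
  · exact (hg.comp (meas_repl S2 b)).comap_le
  · exact (hf.comp (meas_repl S1 b)).comap_le

theorem lintegral_repl (h : Env P X ν a b) {S1 S2 : Edge d → Prop}
    (hd : ∀ e, S1 e → S2 e → False) {f g : (Edge d → ℝ) → ℝ≥0∞} (hf : Measurable f)
    (hg : Measurable g) :
    ∫⁻ ω, f (repl S1 b (cf X ω)) * g (repl S2 b (cf X ω)) ∂P =
      (∫⁻ ω, f (repl S1 b (cf X ω)) ∂P) * ∫⁻ ω, g (repl S2 b (cf X ω)) ∂P := by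
  have h1 := indep_repl (b := b) h hd hf hg
  exact lintegral_mul_eq_lintegral_mul_lintegral_of_indepFun''
    ((hf.comp ((meas_repl S1 b).mono (sig_le h S1) le_rfl)).aemeasurable)
    ((hg.comp ((meas_repl S2 b).mono (sig_le h S2) le_rfl)).aemeasurable) h1

end Pool.Agent.Helper45.PG
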