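import Pool.Agent.Helper79.GR.DA

/-!
# The sum of `exp (- c |k|_1)` over the lattice is finite
-/

set_option autoImplicit false

namespace Pool.Agent.Helper45.PG

open Pool.Agent.Helper79.GR
open scoped ENNReal

/-- the lattice sum -/
noncomputable def LS (d : ℕ) (c : ℝ) : ℝ≥0∞ := ∑' k : V d, ENNReal.ofReal (Real.exp (-(c * n1 k)))

theorem int_sum {c : ℝ} (hc : 0 < c) :
    ∑' j : ℤ, ENNReal.ofReal (Real.exp (-(c * |(j : ℝ)|))) < ∞ := by
  have hs : Summable fun j : ℤ => Real.exp (-(c * |(j : ℝ)|)) := by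
    have h1 : Summable fun n : ℕ => Real.exp (-(c * n)) := by
      have := Real.summable_exp_neg_nat
      have h2 : (fun n : ℕ => Real.exp (-(c * n))) = fun n : ℕ => (Real.exp (-c)) ^ n := by
        funext n
        rw [← Real.exp_nat_mul]
        congr 1
        ring
      rw [h2]
      exact summable_geometric_of_lt_one (Real.exp_pos _).le (by
        rw [Real.exp_lt_one_iff]
        linarith)
    refine Summable.of_nat_of_neg ?_ ?_
    · refine h1.congr fun n => ?_
      simp
    · refine h1.congr fun n => ?_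
      simp
  rw [← ENNReal.ofReal_tsum_of_nonneg (fun _ => (Real.exp_pos _).le) hs]
  exact ENNReal.ofReal_lt_top

theorem LS_lt_top {c : ℝ} (hc : 0 < c) : ∀ d : ℕ, LS d c < ∞ := by
  intro d
  induction d with
  | zero =>
    unfold LS
    rw [tsum_fintype]
    exact ENNReal.sum_lt_top.2 fun _ _ => ENNReal.ofReal_lt_top
  | succ d ih =>
    unfold LS
    rw [← (Fin.consEquiv fun _ : Fin (d + 1) => ℤ).tsum_eq]
    have h0 := ENNReal.tsum_prod (f := fun (j : ℤ) (k : V d) => ENNReal.ofReal (Real.exp (-(c * n1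
        ((Fin.consEquiv fun _ : Fin (d + 1) => ℤ) (j, k))))))
    refine lt_of_eq_of_lt h0 ?_
    have h1 : ∀ (j : ℤ) (k : V d), ENNReal.ofReal (Real.exp (-(c * n1
        ((Fin.consEquiv fun _ : Fin (d + 1) => ℤ) (j, k))))) =
        ENNReal.ofReal (Real.exp (-(c * |(j : ℝ)|))) * ENNReal.ofReal (Real.exp (-(c * n1 k))) := by
      intro j k
      rw [← ENNReal.ofReal_mul (Real.exp_pos _).le, ← Real.exp_add]
      congr 2
      unfold n1
      rw [Fin.sum_univ_succ]
      simp only [Fin.consEquiv, Equiv.coe_fn_mk, Fin.cons_zero, Fin.cons_succ]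
      ring
    have h2 : ∀ j : ℤ, (∑' k : V d, ENNReal.ofReal (Real.exp (-(c * n1
        ((Fin.consEquiv fun _ : Fin (d + 1) => ℤ) (j, k)))))) =
        ENNReal.ofReal (Real.exp (-(c * |(j : ℝ)|))) * LS d c := by
      intro j
      unfold LS
      rw [← ENNReal.tsum_mul_left]
      exact tsum_congr fun k => h1 j k
    have h3 := tsum_congr (β := ℤ) (L := .unconditional ℤ) h2
    refine lt_of_eq_of_lt h3 ?_
    rw [ENNReal.tsum_mul_right]
    exact ENNReal.mul_lt_top (int_sum hc) ih

theorem LS_pos (d : ℕ) (c : ℝ) : 0 < LS d c := by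
  unfold LS
  refine lt_of_lt_of_le ?_ (ENNReal.le_tsum (0 : V d))
  rw [ENNReal.ofReal_pos]
  exact Real.exp_pos _

/-- translated lattice sum -/
theorem LS_translate (d : ℕ) (c : ℝ) (k1 : V d) :
    ∑' k : V d, ENNReal.ofReal (Real.exp (-(c * n1 (k - k1)))) = LS d c := by
  unfold LS
  exact (Equiv.subRight k1).tsum_eq fun k : V d => ENNReal.ofReal (Real.exp (-(c * n1 k)))

end Pool.Agent.Helper45.PG
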