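import Pool.Agent.Helper79.GR.DB
import Pool.Agent.Helper79.GR.DE

/-!
# First-passage percolation: the slab decomposition

`F` is a height function with steps `< c0`.  A geodesic from below the level `t` to above the level
`t + c0` is cut at its first vertex `z1` of height `≥ t` and at its last vertex `z2` of height
`< t + c0`.  The first part only uses edges which meet `{F < t}`, the last part only edges which
meet `{F ≥ t + c0}`; no edge meets both sets.
-/

set_option autoImplicit false

namespace Pool.Agent.Helper45.PG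

open Pool.Agent.Helper79.GR

variable {d : ℕ}

/-- the edge meets `{F < t}` -/
def Low (F : V d → ℝ) (t : ℝ) (e : Edge d) : Prop := ∃ z ∈ e.1, F z < t

/-- the edge meets `{F ≥ t}` -/
def High (F : V d → ℝ) (t : ℝ) (e : Edge d) : Prop := ∃ z ∈ e.1, t ≤ F z

open Classical in
/-- the weights are replaced by `b` off the edges in `S` -/
noncomputable def repl (S : Edge d → Prop) (b : ℝ) (c : Edge d → ℝ) (e : Edge d) : ℝ :=
  if S e then c e else b

theorem repl_bd {a b : ℝ} {c : Edge d → ℝ} (h : Bd a b c) (S : Edge d → Prop) :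
    Bd a b (repl S b c) := by
  refine ⟨h.1, fun e => ?_⟩
  unfold repl
  have h1 := h.2 e
  split_ifs
  · exact h1
  · exact ⟨h1.1.trans h1.2, le_rfl⟩

theorem le_repl {a b : ℝ} {c : Edge d → ℝ} (h : Bd a b c) (S : Edge d → Prop) (e : Edge d) :
    c e ≤ repl S b c e := by
  unfold repl
  split_ifs
  · exact le_rfl
  · exact (h.2 e).2

theorem cost_mono {c c' : Edge d → ℝ} (h : ∀ e, c e ≤ c' e) (w : List (St d)) :
    ∀ x, cost c x w ≤ cost c' x w := by
  induction w with
  | nil => intro x; exact le_rfl
  | cons s w ih => intro x; exact add_le_add (h _) (ih _)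

theorem T_mono {a b a' b' : ℝ} {c c' : Edge d → ℝ} (hc : Bd a b c) (hc' : Bd a' b' c')
    (h : ∀ e, c e ≤ c' e) (x y : V d) : T c x y ≤ T c' x y := by
  obtain ⟨w, hw, hw'⟩ := exists_min hc' x y
  rw [← hw']
  exact (T_le_cost hc hw).trans (cost_mono h w x)

/-- replacing weights by `b` increases the passage time -/
theorem T_le_repl {a b : ℝ} {c : Edge d → ℝ} (h : Bd a b c) (S : Edge d → Prop) (x y : V d) :
    T c x y ≤ T (repl S b c) x y := T_mono h (repl_bd h S) (le_repl h S) x y

theorem cost_congr {c c' : Edge d → ℝ} (x : V d) (w : List (St d))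
    (h : ∀ e ∈ eds x w, c e = c' e) : cost c x w = cost c' x w := by
  rw [cost_eq_sum, cost_eq_sum, List.map_congr_left h]

theorem cost_repl {b : ℝ} {c : Edge d → ℝ} {S : Edge d → Prop} {x : V d} {w : List (St d)}
    (h : ∀ e ∈ eds x w, S e) : cost (repl S b c) x w = cost c x w := by
  refine cost_congr x w fun e he => ?_
  unfold repl
  rw [if_pos (h e he)]

/-- no edge meets both sets -/
theorem low_high {F : V d → ℝ} {c0 t : ℝ} (hF : ∀ x s, |F (x + sv s) - F x| < c0) {e : Edge d}
    (h1 : Low F t e) (h2 : High F (t + c0) e) : False := by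
  obtain ⟨z, hz, hz1⟩ := h1
  obtain ⟨z', hz', hz1'⟩ := h2
  obtain ⟨x, y, he, hxy⟩ := e.2
  -- the difference is a step
  have key : ∀ x y : V d, ∑ i, |x i - y i| = 1 → |F y - F x| < c0 := by
    intro x y hxy
    obtain ⟨i, hi⟩ : ∃ i, |x i - y i| = 1 ∧ ∀ j, j ≠ i → x j = y j := by
      have hex : ∃ i, |x i - y i| ≠ 0 := by
        by_contra hcon
        push Not at hcon
        rw [Finset.sum_eq_zero fun i _ => hcon i] at hxy
        omega
      obtain ⟨i, hi⟩ := hex
      have h1 : |x i - y i| ≤ 1 := by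
        rw [← hxy]
        exact Finset.single_le_sum (f := fun i => |x i - y i|) (fun _ _ => abs_nonneg _)
          (Finset.mem_univ i)
      have h0 : 0 ≤ |x i - y i| := abs_nonneg _
      have h2 : |x i - y i| = 1 := by omega
      refine ⟨i, h2, fun j hj => ?_⟩
      have h3 : |x i - y i| + |x j - y j| ≤ 1 := by
        rw [← hxy, ← Finset.sum_pair (f := fun i => |x i - y i|) hj.symm]
        exact Finset.sum_le_sum_of_subset_of_nonneg (Finset.subset_univ _)
          (fun _ _ _ => abs_nonneg _)
      have h4 : |x j - y j| = 0 := by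
        have := abs_nonneg (x j - y j)
        omega
      have := abs_eq_zero.1 h4
      omega
    obtain ⟨hi1, hi2⟩ := hi
    rcases (abs_eq (by norm_num : (0 : ℤ) ≤ 1)).1 hi1 with h | h
    · have : y = x + sv (i, false) := by
        funext j
        by_cases hj : j = i
        · subst hj
          simp [sv]
          omega
        · have := hi2 j hj
          simp [sv, hj]
          omega
      rw [this]
      exact hF x _
    · have : y = x + sv (i, true) := by
        funext j
        by_cases hj : j = i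
        · subst hj
          simp [sv]
          omega
        · have := hi2 j hj
          simp [sv, hj]
          omega
      rw [this]
      exact hF x _
  have hc0 : 0 < c0 := lt_of_le_of_lt (abs_nonneg _) (key x y hxy)
  rw [he, Sym2.mem_iff] at hz hz'
  have h3 := abs_lt.1 (key x y hxy)
  rcases hz with rfl | rfl <;> rcases hz' with rfl | rfl <;> linarith

/-- the first vertex of height `≥ t` -/
theorem first_hit {F : V d → ℝ} {c0 t : ℝ} (hF : ∀ x s, |F (x + sv s) - F x| < c0)
    (w : List (St d)) : ∀ p : V d, F p < t → t ≤ F (pos p w) →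
    ∃ w1 w2, w = w1 ++ w2 ∧ t ≤ F (pos p w1) ∧ F (pos p w1) < t + c0 ∧
      ∀ e ∈ eds p w1, Low F t e := by
  induction w with
  | nil => intro p h1 h2; exact absurd h2 (not_le.2 h1)
  | cons s w ih =>
    intro p h1 h2
    have hp : Low F t (ed p s) := ⟨p, Sym2.mem_mk_left _ _, h1⟩
    rcases lt_or_ge (F (p + sv s)) t with h | h
    · obtain ⟨w1, w2, e1, e2, e3, e4⟩ := ih (p + sv s) h h2
      refine ⟨s :: w1, w2, by rw [e1]; rfl, e2, e3, ?_⟩
      intro e he
      have he' : e ∈ ed p s :: eds (p + sv s) w1 := he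
      rw [List.mem_cons] at he'
      rcases he' with rfl | he'
      · exact hp
      · exact e4 e he'
    · refine ⟨[s], w, rfl, h, ?_, ?_⟩
      · have := abs_lt.1 (hF p s)
        show F (p + sv s) < _
        linarith
      · intro e he
        have he' : e ∈ [ed p s] := he
        rw [List.mem_singleton] at he'
        rw [he']
        exact hp

/-- the last vertex of height `< t + c0` -/
theorem last_exit {F : V d → ℝ} {c0 t : ℝ} (hF : ∀ x s, |F (x + sv s) - F x| < c0)
    (w : List (St d)) : ∀ q : V d, t + c0 ≤ F (pos q w) →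
    (t + c0 ≤ F q ∧ ∀ e ∈ eds q w, High F (t + c0) e) ∨
    ∃ w1 w2, w = w1 ++ w2 ∧ t ≤ F (pos q w1) ∧ F (pos q w1) < t + c0 ∧
      ∀ e ∈ eds (pos q w1) w2, High F (t + c0) e := by
  induction w with
  | nil =>
    intro q h
    exact Or.inl ⟨h, fun e he => absurd he List.not_mem_nil⟩
  | cons s w ih =>
    intro q h
    rcases ih (q + sv s) h with ⟨h1, h2⟩ | ⟨w1, w2, e1, e2, e3, e4⟩
    · have hall : ∀ e ∈ eds q (s :: w), High F (t + c0) e := by
        intro e he
        have he' : e ∈ ed q s :: eds (q + sv s) w := he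
        rw [List.mem_cons] at he'
        rcases he' with rfl | he'
        · exact ⟨q + sv s, Sym2.mem_mk_right _ _, h1⟩
        · exact h2 e he'
      rcases lt_or_ge (F q) (t + c0) with h3 | h3
      · right
        refine ⟨[], s :: w, rfl, ?_, h3, hall⟩
        have := abs_lt.1 (hF q s)
        show t ≤ F q
        linarith
      · exact Or.inl ⟨h3, hall⟩
    · right
      exact ⟨s :: w1, w2, by rw [e1]; rfl, e2, e3, e4⟩

/-- **THE SLAB DECOMPOSITION** -/
theorem slab {a b : ℝ} {c : Edge d → ℝ} (h : Bd a b c) {F : V d → ℝ} {c0 t : ℝ} (hc0 : 0 ≤ c0)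
    (hF : ∀ x s, |F (x + sv s) - F x| < c0) {p X : V d} (hp : F p < t) (hX : t + c0 ≤ F X) :
    ∃ z1 z2 : V d, t ≤ F z1 ∧ F z1 < t + c0 ∧ t ≤ F z2 ∧ F z2 < t + c0 ∧
      T (repl (Low F t) b c) p z1 + a * n1 (z2 - z1) + T (repl (High F (t + c0)) b c) z2 X ≤
        T c p X := by
  obtain ⟨w, hw, hw'⟩ := exists_min h p X
  obtain ⟨w1, w2, e1, e2, e3, e4⟩ := first_hit hF w p hp (by rw [hw]; linarith)
  have hw2 : t + c0 ≤ F (pos (pos p w1) w2) := by
    rw [← pos_append, ← e1, hw]
    exact hX
  rcases last_exit hF w2 (pos p w1) hw2 with ⟨h1, -⟩ | ⟨u1, u2, f1, f2, f3, f4⟩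
  · exact absurd h1 (not_le.2 e3)
  · refine ⟨pos p w1, pos (pos p w1) u1, e2, e3, f2, f3, ?_⟩
    have g1 : T (repl (Low F t) b c) p (pos p w1) ≤ cost c p w1 := by
      rw [← cost_repl e4 (b := b)]
      exact T_le_cost (repl_bd h _) rfl
    have g2 : T (repl (High F (t + c0)) b c) (pos (pos p w1) u1) X ≤
        cost c (pos (pos p w1) u1) u2 := by
      rw [← cost_repl f4 (b := b)]
      refine T_le_cost (repl_bd h _) ?_
      rw [← pos_append, ← f1, ← pos_append, ← e1, hw]
    have g3 : a * n1 (pos (pos p w1) u1 - pos p w1) ≤ cost c (pos p w1) u1 :=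
      (le_T h _ _).trans (T_le_cost h rfl)
    rw [← hw', e1, cost_append, f1, cost_append]
    linarith

end Pool.Agent.Helper45.PG
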