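import Pool.Agent.Helper45.PG.Ind
import Pool.Agent.Helper45.PG.Lat
import Pool.Agent.Helper51.NP.Defs

/-!
# One slab step in the mean
-/

set_option autoImplicit false

namespace Pool.Agent.Helper45.PG

open Pool.Agent.Helper79.GR Pool.Agent.Helper79.GQ Pool.Agent.Helper51.NP MeasureTheory
  ProbabilityTheory
open scoped ENNReal

variable {Ω : Type*} [MeasurableSpace Ω] {d : ℕ} {P : Measure Ω} {X : Edge d → Ω → ℝ}
  {ν : Measure ℝ} {a b l : ℝ}

/-- `exp (- l T)` as a function of the weights -/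
noncomputable def eT (l : ℝ) (x y : V d) (c : Edge d → ℝ) : ℝ≥0∞ :=
  ENNReal.ofReal (Real.exp (-(l * T c x y)))

theorem measurable_eT (l : ℝ) (x y : V d) : Measurable (eT l x y) :=
  (Real.measurable_exp.comp ((measurable_T_cfg x y).const_mul l).neg).ennreal_ofReal

theorem Z_eq_lintegral (h : Env P X ν a b) (l : ℝ) (x y : V d) :
    ENNReal.ofReal (Z P X l x y) = ∫⁻ ω, eT l x y (cf X ω) ∂P := by
  have := h.prob
  unfold Z eT
  rw [ofReal_integral_eq_lintegral_ofReal]
  · refine Integrable.of_bound ((Real.measurable_exp.comp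
      ((measurable_T h x y).const_mul l).neg).aestronglyMeasurable)
      (Real.exp (|l| * (b * n1 (y - x)))) (Filter.Eventually.of_forall fun ω => ?_)
    rw [Real.norm_eq_abs, abs_of_pos (Real.exp_pos _), Real.exp_le_exp]
    have h1 := T_le (h.cf_bd ω) x y
    have h2 : 0 ≤ T (cf X ω) x y :=
      (mul_nonneg h.apos.le (n1_nonneg _)).trans (le_T (h.cf_bd ω) x y)
    calc -(l * T (cf X ω) x y) ≤ |l| * T (cf X ω) x y := by
          rw [← neg_mul]
          exact mul_le_mul_of_nonneg_right (neg_le_abs l) h2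
      _ ≤ |l| * (b * n1 (y - x)) := mul_le_mul_of_nonneg_left h1 (abs_nonneg l)
  · exact Filter.Eventually.of_forall fun ω => (Real.exp_pos _).le

theorem lintegral_eT (h : Env P X ν a b) (l : ℝ) (x y : V d) :
    ∫⁻ ω, eT l x y (cf X ω) ∂P = ENNReal.ofReal (Z P X l 0 (y - x)) := by
  rw [Z_eq_lintegral h]
  have h1 := (identDistrib_T h x 0 (y - x))
  have h2 := h1.comp (u := fun t : ℝ => ENNReal.ofReal (Real.exp (-(l * t))))
    ((Real.measurable_exp.comp (measurable_id.const_mul l).neg).ennreal_ofReal)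
  have h3 := h2.lintegral_eq
  simpa [eT, Function.comp_def] using h3

theorem lintegral_eT_repl_le (h : Env P X ν a b) (hl : 0 ≤ l) (S : Edge d → Prop) (x y : V d) :
    ∫⁻ ω, eT l x y (repl S b (cf X ω)) ∂P ≤ ENNReal.ofReal (Z P X l 0 (y - x)) := by
  rw [← lintegral_eT h]
  refine lintegral_mono fun ω => ?_
  unfold eT
  refine ENNReal.ofReal_le_ofReal (Real.exp_le_exp.2 ?_)
  have := T_le_repl (h.cf_bd ω) S x y
  nlinarith

/-- rounding to the lattice `w Z^d` -/
def rd (w : ℕ) (z : V d) : V d := fun i => z i / (w : ℤ)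

theorem rd_dist {w : ℕ} (hw : 0 < w) (z : V d) : n1 (z - w • rd w z) ≤ d * w := by
  unfold n1
  have h1 : ∀ i : Fin d, |((z - w • rd w z) i : ℝ)| ≤ w := by
    intro i
    have h2 : (z - w • rd w z) i = z i % (w : ℤ) := by
      have h0 : (w • rd w z) i = (w : ℤ) * (z i / (w : ℤ)) := by
        rw [Pi.smul_apply, nsmul_eq_mul]
        rfl
      rw [Pi.sub_apply, h0]
      have := Int.emod_add_mul_ediv (z i) (w : ℤ)
      omega
    rw [h2]
    have hw' : (0 : ℤ) < w := by exact_mod_cast hw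
    have h3 := Int.emod_nonneg (z i) hw'.ne'
    have h4 := Int.emod_lt_of_pos (z i) hw'
    rw [abs_of_nonneg (by exact_mod_cast h3)]
    exact_mod_cast h4.le
  calc ∑ i, |((z - w • rd w z) i : ℝ)| ≤ ∑ _i : Fin d, (w : ℝ) := Finset.sum_le_sum fun i _ => h1 i
    _ = d * w := by simp

end Pool.Agent.Helper45.PG
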