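import Pool.Agent.Helper45.PG.Step

/-!
# One slab step in the mean: `slab_step`
-/

set_option autoImplicit false

namespace Pool.Agent.Helper45.PG

open Pool.Agent.Helper79.GR Pool.Agent.Helper79.GQ Pool.Agent.Helper51.NP MeasureTheory
  ProbabilityTheory
open scoped ENNReal

variable {Ω : Type*} [MeasurableSpace Ω] {d : ℕ} {P : Measure Ω} {X : Edge d → Ω → ℝ}
  {ν : Measure ℝ} {a b l : ℝ}

/-- the numbers of the slab step -/
theorem step_num {a b l d' w T Tmz Tmq Tpz Tpq n12 N c0 H gx g1 g2 g12 h12 : ℝ} (hl : 0 < l)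
    (hl1 : l ≤ 1) (ha : 0 ≤ a) (hb : 0 ≤ b * d') (hH : 0 ≤ H) (hc0 : 0 ≤ c0) (hd : 0 ≤ d') (hN : 0 ≤ N)
    (hw1 : 1 ≤ l * w) (hw2 : l * w ≤ 2) (hs : Tmz + a * n12 + Tpz ≤ T)
    (h1 : Tmq ≤ Tmz + b * (d' * w)) (h2 : Tpq ≤ b * (d' * w) + Tpz)
    (h3 : w * N ≤ n12 + 2 * (d' * w)) (h4 : gx = g1 + g2 + g12)
    (h5 : g12 ≤ h12 + a / 2 * (w * N)) (h6 : h12 ≤ c0 + 2 * (H * (d' * w))) :
    -(l * T) + l * gx ≤ (4 * (b * d') + 4 * (a * d') + c0 + 4 * (H * d')) + -(a / 2 * N) +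
      l * g1 + l * g2 + (-(l * Tmq) + -(l * Tpq)) := by
  have e0 : l * (Tmq - b * (d' * w) + a * (w * N - 2 * (d' * w)) + (Tpq - b * (d' * w))) ≤ l * T := by
    refine mul_le_mul_of_nonneg_left ?_ hl.le
    have : a * (w * N - 2 * (d' * w)) ≤ a * n12 := mul_le_mul_of_nonneg_left (by linarith) ha
    linarith
  have e1 : l * gx ≤ l * g1 + l * g2 + l * (c0 + 2 * (H * (d' * w)) + a / 2 * (w * N)) := by
    rw [h4]
    have : l * g12 ≤ l * (c0 + 2 * (H * (d' * w)) + a / 2 * (w * N)) :=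
      mul_le_mul_of_nonneg_left (by linarith) hl.le
    linarith
  have e2 : l * c0 ≤ c0 := by nlinarith
  have e3 : (l * w) * (b * d') ≤ 2 * (b * d') :=
    mul_le_mul_of_nonneg_right hw2 hb
  have e4 : (l * w) * (a * d') ≤ 2 * (a * d') :=
    mul_le_mul_of_nonneg_right hw2 (mul_nonneg ha hd)
  have e5 : (l * w) * (H * d') ≤ 2 * (H * d') :=
    mul_le_mul_of_nonneg_right hw2 (mul_nonneg hH hd)
  have e6 : 1 * (a / 2 * N) ≤ (l * w) * (a / 2 * N) :=
    mul_le_mul_of_nonneg_right hw1 (mul_nonneg (by linarith) hN)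
  nlinarith

/-- `h` is Lipschitz for the `ℓ¹` norm -/
theorem lip_h (h : F d →L[ℝ] ℝ) (y : F d) : |h y| ≤ ‖h‖ * nr y := by
  have h1 : ‖y‖ ≤ nr y := by
    refine (pi_norm_le_iff_of_nonneg (Finset.sum_nonneg fun _ _ => abs_nonneg _)).2 fun i => ?_
    exact Finset.single_le_sum (f := fun i => |y i|) (fun _ _ => abs_nonneg _) (Finset.mem_univ i)
  calc |h y| ≤ ‖h‖ * ‖y‖ := h.le_opNorm y
    _ ≤ ‖h‖ * nr y := mul_le_mul_of_nonneg_left h1 (norm_nonneg _)

/-- the constants of the slab step -/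
noncomputable def c0 (h : F d →L[ℝ] ℝ) : ℝ := ‖h‖ + 1

noncomputable def KK (a b : ℝ) (h : F d →L[ℝ] ℝ) : ℝ :=
  4 * (b * d) + 4 * (a * d) + c0 h + 4 * (‖h‖ * d)

noncomputable def CC (a b : ℝ) (h : F d →L[ℝ] ℝ) : ℝ :=
  1 + c0 h + 2 * (‖h‖ * d) + Real.exp (KK a b h) * (LS d (a / 2)).toReal

theorem c0_pos (h : F d →L[ℝ] ℝ) : 0 < c0 h := by
  have := norm_nonneg h
  unfold c0
  linarith

theorem abs_step (h : F d →L[ℝ] ℝ) (x : V d) (s : St d) :
    |h (rv (x + sv s)) - h (rv x)| < c0 h := by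
  rw [rv_add, map_add, add_sub_cancel_left]
  have h1 := lip_h h (rv (sv s))
  rw [nr_rv, n1_sv, mul_one] at h1
  unfold c0
  linarith

theorem b_nonneg {c : Edge d → ℝ} (hc : Bd a b c) (hd : 0 < d) : 0 ≤ b := by
  have h1 := hc.2 (ed (0 : V d) (⟨0, hd⟩, true))
  linarith [hc.1]

theorem bd_nonneg {c : Edge d → ℝ} (hc : Bd a b c) : 0 ≤ b * (d : ℝ) := by
  rcases Nat.eq_zero_or_pos d with hd0 | hd0
  · subst hd0
    simp
  · exact mul_nonneg (b_nonneg hc hd0) (Nat.cast_nonneg _)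

/-- the pointwise form of the slab step -/
theorem pointwise {c : Edge d → ℝ} (hc : Bd a b c) (h g : F d →L[ℝ] ℝ) {C t : ℝ} {w : ℕ} {x : V d}
    (hl : 0 < l) (hl1 : l ≤ 1) (hg : ∀ y, |g y - h y| ≤ a / 2 * nr y) (ht : 0 < t)
    (hC : c0 h + 2 * (‖h‖ * d) ≤ C) (hx : t + C ≤ h (rv x)) (hw0 : 0 < w) (hw1 : 1 ≤ l * w)
    (hw2 : l * w ≤ 2) :
    ENNReal.ofReal (Real.exp (-(l * T c 0 x)) * Real.exp (l * g (rv x))) ≤
      ∑' q1 : {q : V d // |h (rv (w • q)) - t| ≤ C / l},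
      ∑' q2 : {q : V d // |h (rv (w • q)) - t| ≤ C / l},
        ENNReal.ofReal (Real.exp (KK a b h) * Real.exp (-(a / 2 * n1 (q2.1 - q1.1))) *
          Real.exp (l * g (rv (w • q1.1))) * Real.exp (l * g (rv (x - w • q2.1)))) *
        (eT l 0 (w • q1.1) (repl (Low (fun y => h (rv y)) t) b c) *
          eT l (w • q2.1) x (repl (High (fun y => h (rv y)) (t + c0 h)) b c)) := by
  have hH : 0 ≤ ‖h‖ := norm_nonneg _
  have hd : (0 : ℝ) ≤ d := Nat.cast_nonneg _
  have hC0 := c0_pos h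
  have hbd := bd_nonneg hc
  have ha : 0 ≤ a := hc.1.le
  have hp : h (rv (0 : V d)) < t := by
    rw [rv_zero, map_zero]
    exact ht
  have hX : t + c0 h ≤ h (rv x) := by
    have : 0 ≤ ‖h‖ * d := mul_nonneg hH hd
    linarith
  obtain ⟨z1, z2, a1, a2, a3, a4, hs⟩ := slab hc (F := fun y => h (rv y)) hC0.le (abs_step h) hp hX
  have r1 := rd_dist hw0 z1
  have r2 := rd_dist hw0 z2
  -- the windows
  have hwl : (w : ℝ) ≤ 2 / l := by
    rw [le_div_iff₀ hl]
    linarith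
  have near : ∀ z : V d, t ≤ h (rv z) → h (rv z) < t + c0 h → n1 (z - w • rd w z) ≤ d * w →
      |h (rv (w • rd w z)) - t| ≤ C / l := by
    intro z b1 b2 b3
    have e1 : h (rv z) - h (rv (w • rd w z)) = h (rv (z - w • rd w z)) := by
      rw [rv_sub, map_sub]
    have e2 := lip_h h (rv (z - w • rd w z))
    rw [nr_rv, ← e1] at e2
    have e3 : ‖h‖ * n1 (z - w • rd w z) ≤ ‖h‖ * (d * w) := mul_le_mul_of_nonneg_left b3 hH
    have e4 : ‖h‖ * (d * w) ≤ ‖h‖ * d * (2 / l) := by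
      rw [← mul_assoc]
      exact mul_le_mul_of_nonneg_left hwl (mul_nonneg hH hd)
    have e5 : c0 h ≤ c0 h / l := by
      rw [le_div_iff₀ hl]
      nlinarith
    have e6 : (c0 h + 2 * (‖h‖ * d)) / l ≤ C / l := div_le_div_of_nonneg_right hC hl.le
    have e7 : (c0 h + 2 * (‖h‖ * d)) / l = c0 h / l + ‖h‖ * d * (2 / l) := by
      field_simp
    rw [abs_le] at e2 ⊢
    constructor <;> linarith
  refine le_trans ?_ (ENNReal.le_tsum (⟨rd w z1, near z1 a1 a2 r1⟩ :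
    {q : V d // |h (rv (w • q)) - t| ≤ C / l}))
  refine le_trans ?_ (ENNReal.le_tsum (⟨rd w z2, near z2 a3 a4 r2⟩ :
    {q : V d // |h (rv (w • q)) - t| ≤ C / l}))
  unfold eT
  rw [← ENNReal.ofReal_mul (Real.exp_pos _).le, ← ENNReal.ofReal_mul (by positivity)]
  refine ENNReal.ofReal_le_ofReal ?_
  simp only [← Real.exp_add]
  rw [Real.exp_le_exp]
  have hcm := repl_bd hc (Low (fun y => h (rv y)) t)
  have hcp := repl_bd hc (High (fun y => h (rv y)) (t + c0 h))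
  have t1 := T_triangle hcm 0 z1 (w • rd w z1)
  have t2 := T_triangle hcp (w • rd w z2) z2 x
  have t3 := T_le hcm z1 (w • rd w z1)
  have t4 := T_le hcp (w • rd w z2) z2
  have hb1 : b * n1 (w • rd w z1 - z1) ≤ b * (d * w) := by
    rcases Nat.eq_zero_or_pos d with hd0 | hd0
    · subst hd0
      simp [n1]
    · exact mul_le_mul_of_nonneg_left (by rw [n1_sub_comm]; exact r1) (b_nonneg hc hd0)
  have hb2 : b * n1 (z2 - w • rd w z2) ≤ b * (d * w) := by
    rcases Nat.eq_zero_or_pos d with hd0 | hd0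
    · subst hd0
      simp [n1]
    · exact mul_le_mul_of_nonneg_left r2 (b_nonneg hc hd0)
  have hn : (w : ℝ) * n1 (rd w z2 - rd w z1) = n1 (w • rd w z2 - w • rd w z1) := by
    rw [← smul_sub, n1_nsmul]
  have hn' : n1 (w • rd w z2 - w • rd w z1) ≤ n1 (z2 - z1) + 2 * (d * w) := by
    have e1 : w • rd w z2 - w • rd w z1 = (z2 - z1) + ((z1 - w • rd w z1) + (w • rd w z2 - z2)) := by
      abel
    rw [e1]
    refine (n1_add_le _ _).trans ?_
    have e2 := n1_add_le (z1 - w • rd w z1) (w • rd w z2 - z2)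
    rw [n1_sub_comm (w • rd w z2) z2] at e2
    linarith
  have hgx : g (rv x) = g (rv (w • rd w z1)) + g (rv (x - w • rd w z2)) +
      g (rv (w • rd w z2 - w • rd w z1)) := by
    rw [rv_sub, rv_sub, map_sub, map_sub]
    ring
  have hgh : g (rv (w • rd w z2 - w • rd w z1)) ≤ h (rv (w • rd w z2 - w • rd w z1)) +
      a / 2 * (w * n1 (rd w z2 - rd w z1)) := by
    have := hg (rv (w • rd w z2 - w • rd w z1))
    rw [nr_rv, ← hn] at this
    have := (abs_le.1 this).2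
    linarith
  have hh : h (rv (w • rd w z2 - w • rd w z1)) ≤ c0 h + 2 * (‖h‖ * (d * w)) := by
    have e1 : h (rv (w • rd w z2 - w • rd w z1)) = (h (rv z2) - h (rv z1)) +
        h (rv (w • rd w z2 - z2)) + h (rv (z1 - w • rd w z1)) := by
      simp only [rv_sub, map_sub]
      ring
    have e2 := (abs_le.1 (lip_h h (rv (w • rd w z2 - z2)))).2
    have e3 := (abs_le.1 (lip_h h (rv (z1 - w • rd w z1)))).2
    rw [nr_rv] at e2 e3
    rw [n1_sub_comm] at e2
    have e4 : ‖h‖ * n1 (z2 - w • rd w z2) ≤ ‖h‖ * (d * w) := mul_le_mul_of_nonneg_left r2 hH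
    have e5 : ‖h‖ * n1 (z1 - w • rd w z1) ≤ ‖h‖ * (d * w) := mul_le_mul_of_nonneg_left r1 hH
    linarith
  have := step_num (d' := (d : ℝ)) (w := (w : ℝ)) hl hl1 ha hbd hH hC0.le hd
    (n1_nonneg (rd w z2 - rd w z1)) hw1 hw2 hs (Tmq := T (repl (Low (fun y => h (rv y)) t) b c) 0 (w • rd w z1))
    (Tpq := T (repl (High (fun y => h (rv y)) (t + c0 h)) b c) (w • rd w z2) x)
    (by linarith) (by linarith) (by rw [hn]; exact hn') hgx hgh hh
  unfold KK
  linarith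

/-- the integrated form of the slab step -/
theorem integrated (hE : Env P X ν a b) (h g : F d →L[ℝ] ℝ) {C M t : ℝ} {w : ℕ} {x : V d}
    (hl : 0 < l) (hl1 : l ≤ 1) (hg : ∀ y, |g y - h y| ≤ a / 2 * nr y) (ht : 0 < t)
    (hC : c0 h + 2 * (‖h‖ * d) ≤ C) (hx : t + C ≤ h (rv x)) (hw0 : 0 < w) (hw1 : 1 ≤ l * w)
    (hw2 : l * w ≤ 2)
    (hM : ∀ y : V d, |h (rv y) - (h (rv x) - t)| ≤ C / l →
        Z P X l 0 y * Real.exp (l * g (rv y)) ≤ M) :
    ENNReal.ofReal (Z P X l 0 x * Real.exp (l * g (rv x))) ≤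
      ENNReal.ofReal (Real.exp (KK a b h)) * LS d (a / 2) * ENNReal.ofReal M *
      ∑' q : {q : V d // |h (rv (w • q)) - t| ≤ C / l},
        ENNReal.ofReal (Z P X l 0 (w • q.1) * Real.exp (l * g (rv (w • q.1)))) := by
  have hprob := hE.prob
  set S1 : Edge d → Prop := Low (fun y => h (rv y)) t with hS1
  set S2 : Edge d → Prop := High (fun y => h (rv y)) (t + c0 h) with hS2
  have hd12 : ∀ e, S1 e → S2 e → False := fun e h1 h2 => low_high (abs_step h) h1 h2
  -- the left side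
  have e1 : ENNReal.ofReal (Z P X l 0 x * Real.exp (l * g (rv x))) =
      ∫⁻ ω, ENNReal.ofReal (Real.exp (-(l * T (cf X ω) 0 x)) * Real.exp (l * g (rv x))) ∂P := by
    rw [ENNReal.ofReal_mul' (Real.exp_pos _).le, Z_eq_lintegral hE]
    unfold eT
    rw [← lintegral_mul_const' _ _ ENNReal.ofReal_ne_top]
    refine lintegral_congr fun ω => ?_
    rw [ENNReal.ofReal_mul (Real.exp_pos _).le]
  rw [e1]
  have hmeas1 : ∀ x y : V d, Measurable fun ω => eT l x y (repl S1 b (cf X ω)) := fun x y =>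
    (measurable_eT l x y).comp ((meas_repl S1 b).mono (sig_le hE S1) le_rfl)
  have hmeas2 : ∀ x y : V d, Measurable fun ω => eT l x y (repl S2 b (cf X ω)) := fun x y =>
    (measurable_eT l x y).comp ((meas_repl S2 b).mono (sig_le hE S2) le_rfl)
  have hm : ∀ (A : ℝ≥0∞) (x y x' y' : V d), Measurable fun ω =>
      A * (eT l x y (repl S1 b (cf X ω)) * eT l x' y' (repl S2 b (cf X ω))) := fun A x y x' y' =>
    ((hmeas1 x y).mul (hmeas2 x' y')).const_mul A
  refine (lintegral_mono fun ω => pointwise (hE.cf_bd ω) h g hl hl1 hg ht hC hx hw0 hw1 hw2).trans ?_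
  rw [lintegral_tsum fun q1 => (Measurable.ennreal_tsum fun q2 => hm _ _ _ _ _).aemeasurable]
  rw [← ENNReal.tsum_mul_left]
  refine ENNReal.tsum_le_tsum fun q1 => ?_
  rw [lintegral_tsum fun q2 => (hm _ _ _ _ _).aemeasurable]
  have hterm : ∀ q2 : {q : V d // |h (rv (w • q)) - t| ≤ C / l},
      ∫⁻ ω, ENNReal.ofReal (Real.exp (KK a b h) * Real.exp (-(a / 2 * n1 (q2.1 - q1.1))) *
          Real.exp (l * g (rv (w • q1.1))) * Real.exp (l * g (rv (x - w • q2.1)))) *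
        (eT l 0 (w • q1.1) (repl S1 b (cf X ω)) * eT l (w • q2.1) x (repl S2 b (cf X ω))) ∂P ≤
      (ENNReal.ofReal (Real.exp (KK a b h)) * ENNReal.ofReal M *
        ENNReal.ofReal (Z P X l 0 (w • q1.1) * Real.exp (l * g (rv (w • q1.1))))) *
        ENNReal.ofReal (Real.exp (-(a / 2 * n1 (q2.1 - q1.1)))) := by
    intro q2
    rw [lintegral_const_mul' _ _ ENNReal.ofReal_ne_top,
      lintegral_repl hE hd12 (measurable_eT _ _ _) (measurable_eT _ _ _)]
    have f1 := lintegral_eT_repl_le hE hl.le S1 0 (w • q1.1)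
    have f2 := lintegral_eT_repl_le hE hl.le S2 (w • q2.1) x
    rw [sub_zero] at f1
    have f3 : ENNReal.ofReal (Z P X l 0 (x - w • q2.1) * Real.exp (l * g (rv (x - w • q2.1)))) ≤
        ENNReal.ofReal M := by
      refine ENNReal.ofReal_le_ofReal (hM _ ?_)
      have e2 := q2.2
      rw [rv_sub, map_sub]
      rw [← abs_neg]
      refine le_of_eq_of_le ?_ e2
      congr 1
      ring
    calc _ ≤ ENNReal.ofReal (Real.exp (KK a b h) * Real.exp (-(a / 2 * n1 (q2.1 - q1.1))) *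
          Real.exp (l * g (rv (w • q1.1))) * Real.exp (l * g (rv (x - w • q2.1)))) *
          (ENNReal.ofReal (Z P X l 0 (w • q1.1)) * ENNReal.ofReal (Z P X l 0 (x - w • q2.1))) :=
        mul_le_mul_right (mul_le_mul' f1 f2) _
      _ = (ENNReal.ofReal (Real.exp (KK a b h)) *
          ENNReal.ofReal (Z P X l 0 (x - w • q2.1) * Real.exp (l * g (rv (x - w • q2.1)))) *
        ENNReal.ofReal (Z P X l 0 (w • q1.1) * Real.exp (l * g (rv (w • q1.1))))) *
        ENNReal.ofReal (Real.exp (-(a / 2 * n1 (q2.1 - q1.1)))) := by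
        rw [ENNReal.ofReal_mul (by positivity), ENNReal.ofReal_mul (by positivity),
          ENNReal.ofReal_mul (by positivity),
          ENNReal.ofReal_mul' (Real.exp_pos (l * g (rv (x - w • q2.1)))).le,
          ENNReal.ofReal_mul' (Real.exp_pos (l * g (rv (w • q1.1)))).le]
        ring
      _ ≤ _ := by
        refine mul_le_mul' (mul_le_mul' (mul_le_mul' le_rfl f3) le_rfl) le_rfl
  refine (ENNReal.tsum_le_tsum hterm).trans ?_
  rw [ENNReal.tsum_mul_left]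
  have hsum : ∑' q2 : {q : V d // |h (rv (w • q)) - t| ≤ C / l},
      ENNReal.ofReal (Real.exp (-(a / 2 * n1 (q2.1 - q1.1)))) ≤ LS d (a / 2) := by
    rw [← LS_translate d (a / 2) q1.1]
    exact ENNReal.tsum_comp_le_tsum_of_injective Subtype.val_injective
      fun k : V d => ENNReal.ofReal (Real.exp (-(a / 2 * n1 (k - q1.1))))
  refine (mul_le_mul' le_rfl hsum).trans (le_of_eq ?_)
  ring

end Pool.Agent.Helper45.PG
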